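import Pool.Agent.Helper58.Generic

/-!
Continuous actions, patching of sequences, the localization lemma and the ergodicity lemma.
-/

set_option autoImplicit false

open Topology Filter Set TopologicalSpace
open scoped Classical

namespace Pool.Agent.Helper58

universe u v w u1 u2 u3 u4 u5

/-- A jointly continuous action. -/
structure CAct (Q : Type u) (W : Type v) [Group Q] [TopologicalSpace Q] [TopologicalSpace W] where
  act : Q → W → W
  one : ∀ w, act 1 w = w
  mul : ∀ p q w, act (p * q) w = act p (act q w)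
  cont : Continuous fun x : Q × W => act x.1 x.2

namespace CAct

variable {Q : Type u} {W : Type v} [Group Q] [TopologicalSpace Q] [TopologicalSpace W]
  (a : CAct Q W)

theorem inv_act (q : Q) (w : W) : a.act q⁻¹ (a.act q w) = w := by
  rw [← a.mul, inv_mul_cancel, a.one]

theorem act_inv (q : Q) (w : W) : a.act q (a.act q⁻¹ w) = w := by
  rw [← a.mul, mul_inv_cancel, a.one]

theorem continuous_act (q : Q) : Continuous (a.act q) :=
  a.cont.comp (Continuous.prodMk_right q)

/-- Each group element acts as a homeomorphism. -/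
def homeo (q : Q) : W ≃ₜ W where
  toFun := a.act q
  invFun := a.act q⁻¹
  left_inv := a.inv_act q
  right_inv := a.act_inv q
  continuous_toFun := a.continuous_act q
  continuous_invFun := a.continuous_act q⁻¹

/-- The homeomorphism `(w, q) ↦ (q • w, q)`. -/
def pairHomeo [IsTopologicalGroup Q] : (W × Q) ≃ₜ (W × Q) where
  toFun x := (a.act x.2 x.1, x.2)
  invFun x := (a.act x.2⁻¹ x.1, x.2)
  left_inv x := by simp [a.inv_act]
  right_inv x := by simp [a.act_inv]
  continuous_toFun :=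
    (a.cont.comp (continuous_snd.prodMk continuous_fst)).prodMk continuous_snd
  continuous_invFun :=
    (a.cont.comp ((continuous_inv.comp continuous_snd).prodMk continuous_fst)).prodMk
      continuous_snd

end CAct

section Patch

variable {I : Type u} {Z : Type v}

/-- The function equal to `y` on `A` and to `z` off `A`. -/
noncomputable def patch (A : Set I) (y z : I → Z) : I → Z := fun i => if i ∈ A then y i else z i

theorem patch_of_mem {A : Set I} {i : I} (hi : i ∈ A) (y z : I → Z) : patch A y z i = y i :=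
  if_pos hi

theorem patch_of_notMem {A : Set I} {i : I} (hi : i ∉ A) (y z : I → Z) : patch A y z i = z i :=
  if_neg hi

theorem patch_self (A : Set I) (y : I → Z) : patch A y y = y := by
  funext i; by_cases hi : i ∈ A <;> simp [patch, hi]

variable [TopologicalSpace Z]

theorem continuous_patch (A : Set I) :
    Continuous fun x : (I → Z) × (I → Z) => patch A x.1 x.2 := by
  refine continuous_pi fun i => ?_
  by_cases hi : i ∈ A
  · simp only [patch, hi, if_true]
    exact (continuous_apply i).comp continuous_fst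
  · simp only [patch, hi, if_false]
    exact (continuous_apply i).comp continuous_snd

theorem continuous_patch_comp (A : Set I) {X : Type w} [TopologicalSpace X] {f g : X → (I → Z)}
    (hf : Continuous f) (hg : Continuous g) : Continuous fun x => patch A (f x) (g x) :=
  (continuous_patch A).comp (hf.prodMk hg)

/-- The involution `(y, z) ↦ (y on A and z off A, z on A and y off A)`. -/
noncomputable def patchHomeo (A : Set I) : ((I → Z) × (I → Z)) ≃ₜ ((I → Z) × (I → Z)) where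
  toFun x := (patch A x.1 x.2, patch A x.2 x.1)
  invFun x := (patch A x.1 x.2, patch A x.2 x.1)
  left_inv x := by
    refine Prod.ext ?_ ?_ <;> funext i <;> by_cases hi : i ∈ A <;> simp [patch, hi]
  right_inv x := by
    refine Prod.ext ?_ ?_ <;> funext i <;> by_cases hi : i ∈ A <;> simp [patch, hi]
  continuous_toFun := (continuous_patch A).prodMk
    ((continuous_patch A).comp (continuous_snd.prodMk continuous_fst))
  continuous_invFun := (continuous_patch A).prodMk
    ((continuous_patch A).comp (continuous_snd.prodMk continuous_fst))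

theorem isOpenMap_patch (A : Set I) :
    IsOpenMap fun x : (I → Z) × (I → Z) => patch A x.1 x.2 :=
  isOpenMap_fst.comp (patchHomeo (Z := Z) A).isOpenMap

theorem generic_patch (A : Set I) {p : (I → Z) → Prop} (hp : ∀ᵇ x, p x) :
    ∀ᵇ x : (I → Z) × (I → Z), p (patch A x.1 x.2) :=
  generic_comp (continuous_patch A) (isOpenMap_patch A) hp

theorem patch_mem_pi_iff {A : Set I} {F : Finset I} (hF : (F : Set I) ⊆ A) (u : I → Set Z)
    (y z : I → Z) : patch A y z ∈ (F : Set I).pi u ↔ y ∈ (F : Set I).pi u := by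
  simp only [Set.mem_pi]
  refine forall₂_congr fun i hi => ?_
  rw [patch_of_mem (hF hi)]

end Patch

section LF

variable {I : Type u} {J : Type v} {Z : Type w} {P : Type u1} {κ : Type u2} {ι : Type u3}
  [Countable I] [Countable J] [TopologicalSpace Z] [PolishSpace Z]
  [Group P] [TopologicalSpace P] [IsTopologicalGroup P] [PolishSpace P] [Countable κ]

/-- Localization lemma. -/
theorem localize (a : CAct (J → P) (I → Z)) (AJ : ι → Set J) (AI : ι → Set I)
    (hgood : ∀ (F : Finset J) (F' : Finset I), ∃ S : ι, (F : Set J) ⊆ AJ S ∧ (F' : Set I) ⊆ AI S)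
    (hcompat : ∀ S q1 q2 y z, a.act (patch (AJ S) q1 q2) (patch (AI S) y z) =
      patch (AI S) (a.act q1 y) (a.act q2 z))
    (B : κ → (I → Z) → (I → Z) → Prop)
    (hB : ∀ k, BaireMeasurableSet {x : (I → Z) × (J → P) | B k x.1 (a.act x.2 x.1)})
    (R : (I → Z) → (I → Z) → Prop) (hR : ∀ k x u v, B k x u → B k x v → R u v)
    [Nonempty Z]
    (hcov : ∀ᵇ x : (I → Z) × (J → P), ∃ k, B k x.1 (a.act x.2 x.1)) :
    ∃ S : ι, ∃ O : Set (I → Z), IsOpen O ∧ O.Nonempty ∧
      ∀ᵇ x : ((I → Z) × (I → Z)) × (J → P), x.1.1 ∈ O →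
        R (patch (AI S) x.1.1 x.1.2) (patch (AI S) x.1.1 (a.act x.2 x.1.2)) := by
  obtain ⟨k, U, hUo, ⟨⟨x0, q0⟩, hxq⟩, -, hU⟩ := exists_open_of_cover hB isOpen_univ
    ⟨((fun _ => Classical.arbitrary Z), 1), trivial⟩
    (by filter_upwards [hcov] with x hx _ using hx)
  obtain ⟨O1, V1, hO1, hV1, hx0, hq0, hOV⟩ := isOpen_prod_iff.1 hUo x0 q0 hxq
  obtain ⟨F', u, hu, huO⟩ := isOpen_pi_iff.1 hO1 x0 hx0
  obtain ⟨F, v, hv, hvV⟩ := isOpen_pi_iff.1 hV1 q0 hq0
  obtain ⟨S, hFS, hF'S⟩ := hgood F F'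
  set O := (F' : Set I).pi u with hOdef
  set V := (F : Set J).pi v with hVdef
  have hOo : IsOpen O := isOpen_set_pi (Finset.finite_toSet _) fun i hi => (hu i hi).1
  have hVo : IsOpen V := isOpen_set_pi (Finset.finite_toSet _) fun i hi => (hv i hi).1
  have hx0O : x0 ∈ O := fun i hi => (hu i hi).2
  have hq0V : q0 ∈ V := fun i hi => (hv i hi).2
  have h1 : ∀ᵇ x : (I → Z) × (J → P), x.1 ∈ O → x.2 ∈ V → B k x.1 (a.act x.2 x.1) := by
    filter_upwards [hU] with x hx hxO hxV
    exact hx (hOV ⟨huO hxO, hvV hxV⟩)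
  -- step a
  have h2 : ∀ᵇ x : ((I → Z) × (I → Z)) × ((J → P) × (J → P)), x.1.1 ∈ O → x.2.1 ∈ V →
      B k (patch (AI S) x.1.1 x.1.2)
        (patch (AI S) (a.act x.2.1 x.1.1) (a.act x.2.2 x.1.2)) := by
    have := generic_comp (f := fun x : ((I → Z) × (I → Z)) × ((J → P) × (J → P)) =>
      ((patch (AI S) x.1.1 x.1.2 : I → Z), (patch (AJ S) x.2.1 x.2.2 : J → P)))
      (((continuous_patch (AI S)).comp continuous_fst).prodMk
        ((continuous_patch (AJ S)).comp continuous_snd))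
      ((isOpenMap_patch (AI S)).prodMap (isOpenMap_patch (AJ S))) h1
    filter_upwards [this] with x hx hxO hxV
    have := hx ((patch_mem_pi_iff hF'S u _ _).2 hxO) ((patch_mem_pi_iff hFS v _ _).2 hxV)
    rwa [hcompat] at this
  -- step b
  have h3 : ∀ᵇ x : ((I → Z) × (I → Z)) × (((J → P) × (J → P)) × (J → P)),
      x.1.1 ∈ O → x.2.1.1 ∈ V →
      R (patch (AI S) (a.act x.2.1.1 x.1.1) (a.act x.2.1.2 x.1.2))
        (patch (AI S) (a.act x.2.1.1 x.1.1) (a.act x.2.2 x.1.2)) := by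
    have e1 := generic_comp (f := fun x : ((I → Z) × (I → Z)) ×
        (((J → P) × (J → P)) × (J → P)) => (x.1, x.2.1))
      (continuous_fst.prodMk (continuous_fst.comp continuous_snd))
      (IsOpenMap.id.prodMap isOpenMap_fst) h2
    have e2 := generic_comp (f := fun x : ((I → Z) × (I → Z)) ×
        (((J → P) × (J → P)) × (J → P)) => (x.1, (x.2.1.1, x.2.2)))
      (by fun_prop)
      (IsOpenMap.id.prodMap (isOpenMap_fst.prodMap IsOpenMap.id)) h2
    filter_upwards [e1, e2] with x hx1 hx2 hxO hxV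
    exact hR k _ _ _ (hx1 hxO hxV) (hx2 hxO hxV)
  -- step c
  let e : (((J → P) × (J → P)) × (((I → Z) × (I → Z)) × (J → P))) ≃ₜ
      ((I → Z) × (I → Z)) × (((J → P) × (J → P)) × (J → P)) :=
    { toFun := fun x => (x.2.1, (x.1, x.2.2))
      invFun := fun x => (x.2.1, (x.1, x.2.2))
      left_inv := fun x => rfl
      right_inv := fun x => rfl
      continuous_toFun := by fun_prop
      continuous_invFun := by fun_prop }
  have h4 := ku (generic_homeo e h3)
  obtain ⟨⟨q1, q2⟩, hq1V, hq⟩ := exists_of_generic h4 (hVo.prod isOpen_univ) ⟨(q0, 1), hq0V, trivial⟩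
  -- step d
  let e' : (((I → Z) × (I → Z)) × (J → P)) ≃ₜ (((I → Z) × (I → Z)) × (J → P)) :=
    (((a.homeo q1⁻¹).prodCongr (a.homeo q2⁻¹)).prodCongr (Homeomorph.mulRight q2))
  have h5 := generic_homeo e' hq
  refine ⟨S, (a.act q1⁻¹) ⁻¹' O, hOo.preimage (a.continuous_act _), ⟨a.act q1 x0, ?_⟩, ?_⟩
  · simp only [mem_preimage, a.inv_act]; exact hx0O
  · filter_upwards [h5] with x hx hxO
    have := hx hxO hq1V.1
    simpa [e, e', CAct.homeo, a.act_inv, a.mul] using this

end LF

section Ergodic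

/-- Parametrized ergodicity lemma: a function which is generically invariant under a
topologically transitive action is generically constant. -/
theorem ergodic {V : Type u} {W : Type v} {Q : Type w} {Y : Type u1} [TopologicalSpace V]
    [TopologicalSpace W] [Group Q] [TopologicalSpace Q] [IsTopologicalGroup Q]
    [BaireSpace (V × (W × Q))]
    (a : CAct Q W) (htrans : ∀ N1 N2 : Set W, IsOpen N1 → IsOpen N2 → N1.Nonempty →
      N2.Nonempty → ∃ q, ∃ w ∈ N1, a.act q w ∈ N2)
    [MeasurableSpace Y] [MeasurableSpace.CountablySeparated Y]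
    (φ : V × W → Y) (hφ : ∀ B : Set Y, MeasurableSet B → BaireMeasurableSet (φ ⁻¹' B))
    {O : Set V} (hO : IsOpen O)
    (hinv : ∀ᵇ x : V × (W × Q), x.1 ∈ O → φ (x.1, x.2.1) = φ (x.1, a.act x.2.2 x.2.1)) :
    ∀ᵇ x : V × (W × W), x.1 ∈ O → φ (x.1, x.2.1) = φ (x.1, x.2.2) := by
  obtain ⟨S, hSc, hSm, hS⟩ := exists_countable_separating Y MeasurableSet univ
  have hu : ∀ B : Set Y, ∃ u : Set (V × W), IsOpen u ∧ (B ∈ S → φ ⁻¹' B =ᵇ u) := by
    intro B
    by_cases hB : B ∈ S
    · obtain ⟨u, hu, hu'⟩ := (hφ B (hSm B hB)).residualEq_isOpen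
      exact ⟨u, hu, fun _ => hu'⟩
    · exact ⟨∅, isOpen_empty, fun h => absurd h hB⟩
  have hv : ∀ B : Set Y, ∃ u : Set (V × W), IsOpen u ∧ (B ∈ S → (φ ⁻¹' B)ᶜ =ᵇ u) := by
    intro B
    by_cases hB : B ∈ S
    · obtain ⟨u, hu, hu'⟩ := (hφ B (hSm B hB)).compl.residualEq_isOpen
      exact ⟨u, hu, fun _ => hu'⟩
    · exact ⟨∅, isOpen_empty, fun h => absurd h hB⟩
  choose u huo hu using hu
  choose v hvo hv using hv
  have claim : ∀ B ∈ S, ∀ t ∈ O, ∀ z z', (t, z) ∈ u B → (t, z') ∈ v B → False := by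
    intro B hB t ht z z' h1 h2
    obtain ⟨V1, N1, hV1, hN1, ht1, hz1, hs1⟩ := isOpen_prod_iff.1 (huo B) t z h1
    obtain ⟨V2, N2, hV2, hN2, ht2, hz2, hs2⟩ := isOpen_prod_iff.1 (hvo B) t z' h2
    obtain ⟨q0, w0, hw0, hw0'⟩ := htrans N1 N2 hN1 hN2 ⟨z, hz1⟩ ⟨z', hz2⟩
    let D : Set (V × (W × Q)) := {x | (x.1 ∈ V1 ∩ V2 ∩ O ∧ x.2.1 ∈ N1) ∧ a.act x.2.2 x.2.1 ∈ N2}
    have hact : Continuous fun x : V × (W × Q) => a.act x.2.2 x.2.1 :=
      a.cont.comp ((continuous_snd.comp continuous_snd).prodMk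
        (continuous_fst.comp continuous_snd))
    have hD : IsOpen D :=
      ((((hV1.inter hV2).inter hO).preimage continuous_fst).inter
        (hN1.preimage (continuous_fst.comp continuous_snd))).inter (hN2.preimage hact)
    have hDne : D.Nonempty := ⟨(t, (w0, q0)), ⟨⟨⟨ht1, ht2⟩, ht⟩, hw0⟩, hw0'⟩
    have g1 : ∀ᵇ x : V × (W × Q), ((x.1, x.2.1) ∈ φ ⁻¹' B ↔ (x.1, x.2.1) ∈ u B) :=
      generic_comp (f := fun x : V × (W × Q) => (x.1, x.2.1)) (by fun_prop)
        (IsOpenMap.id.prodMap isOpenMap_fst) (eventuallyEq_set.1 (hu B hB))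
    have g2 : ∀ᵇ x : V × (W × Q), ((x.1, a.act x.2.2 x.2.1) ∈ (φ ⁻¹' B)ᶜ ↔
        (x.1, a.act x.2.2 x.2.1) ∈ v B) :=
      generic_comp (f := fun x : V × (W × Q) => (x.1, a.act x.2.2 x.2.1))
        (continuous_fst.prodMk hact)
        (IsOpenMap.id.prodMap (isOpenMap_fst.comp a.pairHomeo.isOpenMap))
        (eventuallyEq_set.1 (hv B hB))
    obtain ⟨x, hxD, ⟨hx1, hx2⟩, hx3⟩ := exists_of_generic ((g1.and g2).and hinv) hD hDne
    have e1 : φ (x.1, x.2.1) ∈ B := hx1.2 (hs1 ⟨hxD.1.1.1.1, hxD.1.2⟩)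
    have e2 : φ (x.1, a.act x.2.2 x.2.1) ∉ B := hx2.2 (hs2 ⟨hxD.1.1.1.2, hxD.2⟩)
    rw [hx3 hxD.1.1.2] at e1
    exact e2 e1
  have G1 : ∀ᵇ x : V × (W × W), ∀ B ∈ S, ((x.1, x.2.1) ∈ φ ⁻¹' B ↔ (x.1, x.2.1) ∈ u B) := by
    rw [eventually_countable_ball hSc]
    intro B hB
    exact generic_comp (f := fun x : V × (W × W) => (x.1, x.2.1)) (by fun_prop)
        (IsOpenMap.id.prodMap isOpenMap_fst) (eventuallyEq_set.1 (hu B hB))
  have G2 : ∀ᵇ x : V × (W × W), ∀ B ∈ S, ((x.1, x.2.2) ∈ φ ⁻¹' B ↔ (x.1, x.2.2) ∈ u B) := by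
    rw [eventually_countable_ball hSc]
    intro B hB
    exact generic_comp (f := fun x : V × (W × W) => (x.1, x.2.2)) (by fun_prop)
        (IsOpenMap.id.prodMap isOpenMap_snd) (eventuallyEq_set.1 (hu B hB))
  have G3 : ∀ᵇ x : V × (W × W), ∀ B ∈ S, ((x.1, x.2.1) ∈ (φ ⁻¹' B)ᶜ ↔ (x.1, x.2.1) ∈ v B) := by
    rw [eventually_countable_ball hSc]
    intro B hB
    exact generic_comp (f := fun x : V × (W × W) => (x.1, x.2.1)) (by fun_prop)
        (IsOpenMap.id.prodMap isOpenMap_fst) (eventuallyEq_set.1 (hv B hB))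
  have G4 : ∀ᵇ x : V × (W × W), ∀ B ∈ S, ((x.1, x.2.2) ∈ (φ ⁻¹' B)ᶜ ↔ (x.1, x.2.2) ∈ v B) := by
    rw [eventually_countable_ball hSc]
    intro B hB
    exact generic_comp (f := fun x : V × (W × W) => (x.1, x.2.2)) (by fun_prop)
        (IsOpenMap.id.prodMap isOpenMap_snd) (eventuallyEq_set.1 (hv B hB))
  filter_upwards [G1, G2, G3, G4] with x h1 h2 h3 h4 hxO
  refine hS _ trivial _ trivial fun B hB => ⟨fun h => ?_, fun h => ?_⟩
  · by_contra h'
    exact claim B hB x.1 hxO _ _ ((h1 B hB).1 h) ((h4 B hB).1 h')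
  · by_contra h'
    exact claim B hB x.1 hxO _ _ ((h2 B hB).1 h) ((h3 B hB).1 h')

/-- Unparametrized ergodicity lemma. -/
theorem ergodic' {W : Type v} {Q : Type w} {Y : Type u1}
    [TopologicalSpace W] [Group Q] [TopologicalSpace Q] [IsTopologicalGroup Q]
    [BaireSpace (W × Q)] [SecondCountableTopology W] [BaireSpace W] [Nonempty W]
    (a : CAct Q W) (htrans : ∀ N1 N2 : Set W, IsOpen N1 → IsOpen N2 → N1.Nonempty →
      N2.Nonempty → ∃ q, ∃ w ∈ N1, a.act q w ∈ N2)
    [MeasurableSpace Y] [MeasurableSpace.CountablySeparated Y]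
    (φ : W → Y) (hφ : ∀ B : Set Y, MeasurableSet B → BaireMeasurableSet (φ ⁻¹' B))
    (hinv : ∀ᵇ x : W × Q, φ x.1 = φ (a.act x.2 x.1)) :
    ∃ c, ∀ᵇ w, φ w = c := by
  haveI : BaireSpace (Unit × (W × Q)) :=
    (Homeomorph.punitProd (W × Q)).symm.isOpenQuotientMap.baireSpace
  have h := ergodic (V := Unit) a htrans (fun x : Unit × W => φ x.2)
    (fun B hB => (hφ B hB).preimage (f := fun x : Unit × W => x.2) continuous_snd isOpenMap_snd)
    (O := univ) isOpen_univ (by
      filter_upwards [generic_snd (X := Unit) hinv] with x hx _ using hx)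
  have h' : ∀ᵇ x : W × W, φ x.1 = φ x.2 := by
    have := generic_homeo (Homeomorph.punitProd (W × W)).symm h
    filter_upwards [this] with x hx
    exact hx trivial
  obtain ⟨w, -, hw⟩ := exists_of_generic (ku h') isOpen_univ univ_nonempty
  exact ⟨φ w, by filter_upwards [hw] with y hy using hy.symm⟩

end Ergodic

end Pool.Agent.Helper58
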