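import Mathlib

/-!
Group jumps of equivalence relations and Borel reducibility.
-/

set_option autoImplicit false

namespace Pool.Agent.Helper58

universe u v w

/-- The `G`-jump `E^[G]` of an equivalence relation `E` on `X`: the equivalence relation on
`G → X` relating `α` and `β` when some `g` satisfies `α (g⁻¹ h) E β h` for all `h`. -/
def groupJump (G : Type u) [Group G] {X : Type v} (E : Setoid X) : Setoid (G → X) where
  r α β := ∃ g : G, ∀ h : G, E (α (g⁻¹ * h)) (β h)
  iseqv :=
    { refl := fun α => ⟨1, fun h => by rw [inv_one, one_mul]⟩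
      symm := by
        rintro α β ⟨g, hg⟩
        refine ⟨g⁻¹, fun h => ?_⟩
        have := hg (g * h)
        rw [inv_mul_cancel_left] at this
        rw [inv_inv]
        exact E.symm this
      trans := by
        rintro α β γ ⟨g, hg⟩ ⟨k, hk⟩
        refine ⟨k * g, fun h => ?_⟩
        have h1 := hg (k⁻¹ * h)
        rw [mul_inv_rev, mul_assoc]
        exact E.trans h1 (hk h) }

/-- Borel reducibility `E ≤_B F`: some Borel map `f` satisfies `x E x' ↔ f x F f x'`. -/
def BorelReducible {X : Type u} {Y : Type v} [TopologicalSpace X] [TopologicalSpace Y]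
    (E : Setoid X) (F : Setoid Y) : Prop :=
  ∃ f : X → Y, @Measurable X Y (borel X) (borel Y) f ∧ ∀ x x' : X, E x x' ↔ F (f x) (f x')

theorem BorelReducible.trans {X : Type u} {Y : Type v} {T : Type w} [TopologicalSpace X]
    [TopologicalSpace Y] [TopologicalSpace T] {E : Setoid X} {F : Setoid Y} {D : Setoid T}
    (h1 : BorelReducible E F) (h2 : BorelReducible F D) : BorelReducible E D := by
  obtain ⟨f, hf, hf'⟩ := h1
  obtain ⟨g, hg, hg'⟩ := h2
  exact ⟨g ∘ f, @Measurable.comp _ _ _ (borel X) (borel Y) (borel T) _ _ hg hf,
    fun x x' => (hf' x x').trans (hg' _ _)⟩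

/-- Group jumps are monotone for Borel reducibility. -/
theorem BorelReducible.jump (G : Type w) [Group G] [Countable G] {X : Type u} {Y : Type v}
    [TopologicalSpace X] [TopologicalSpace Y] [SecondCountableTopology X]
    [SecondCountableTopology Y] {E : Setoid X} {F : Setoid Y}
    (h1 : BorelReducible E F) : BorelReducible (groupJump G E) (groupJump G F) := by
  obtain ⟨f, hf, hf'⟩ := h1
  let _ : MeasurableSpace X := borel X
  have _ : BorelSpace X := ⟨rfl⟩
  let _ : MeasurableSpace Y := borel Y
  have _ : BorelSpace Y := ⟨rfl⟩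
  refine ⟨fun α g => f (α g), ?_, fun α β => ?_⟩
  · have h2 : Measurable fun (α : G → X) (g : G) => f (α g) :=
      measurable_pi_lambda _ fun g => hf.comp (measurable_pi_apply g)
    have e1 : borel (G → X) = MeasurableSpace.pi := (BorelSpace.measurable_eq).symm
    have e2 : borel (G → Y) = MeasurableSpace.pi := (BorelSpace.measurable_eq).symm
    rw [e1, e2]
    exact h2
  · exact exists_congr fun g => forall_congr' fun h => hf' _ _

end Pool.Agent.Helper58
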