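import Pool.Agent.Helper58.Factor
import Pool.Agent.Helper58.Jump

/-!
The two cases of the main theorem.
-/

set_option autoImplicit false
set_option linter.unusedSectionVars false
set_option linter.style.haveILetI false

open Topology Filter Set TopologicalSpace MulAction
open scoped Classical

namespace Pool.Agent.Helper58

universe u v w u1 u2 u3 u4 u5

section Curry

variable {H : Type u} {G : Type v} {Z : Type w}

/-- Currying. -/
def cur (y : H × G → Z) : H → G → Z := fun h g => y (h, g)

theorem continuous_cur [TopologicalSpace Z] : Continuous (cur : (H × G → Z) → (H → G → Z)) :=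
  continuous_pi fun h => continuous_pi fun g => continuous_apply (h, g)

variable [Group H] [Group G]

/-- The double jump relation on the product space. -/
def J2 (E : Setoid Z) (y y' : H × G → Z) : Prop :=
  groupJump H (groupJump G E) (cur y) (cur y')

theorem J2_of_forall {E : Setoid Z} {y y' : H × G → Z}
    (h : ∀ a : H, ∃ g : G, ∀ i : G, E (y (a, g⁻¹ * i)) (y' (a, i))) : J2 E y y' := by
  refine ⟨1, fun a => ?_⟩
  obtain ⟨g, hg⟩ := h a
  refine ⟨g, fun i => ?_⟩
  have : (1 : H)⁻¹ * a = a := by rw [inv_one, one_mul]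
  rw [this]
  exact hg i

theorem J2_symm {E : Setoid Z} {y y' : H × G → Z} (h : J2 E y y') : J2 E y' y :=
  (groupJump H (groupJump G E)).symm h

end Curry

section Common

variable {H : Type u} {G : Type v} {Z : Type w} {Y : Type u2} {K : Type u3}
  [Group H] [Countable H] [Infinite H]
  [Group G] [Countable G] [Infinite G] [TopologicalSpace G] [DiscreteTopology G]
  [TopologicalSpace Z] [PolishSpace Z] [Nonempty Z] [MeasurableSpace Z] [BorelSpace Z]
  [Group K] [Countable K]

theorem J2_shift (E : Setoid Z) (τ : H → G) (y : H × G → Z) :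
    J2 E ((shiftAct H G Z).act τ y) y := by
  refine J2_of_forall fun a => ⟨(τ a)⁻¹, fun i => ?_⟩
  rw [shiftAct_apply, inv_inv, inv_mul_cancel_left]

/-- First localization step: after fixing finitely many `H`-coordinates, a homomorphism from the
double jump to the `K`-jump of `F` becomes invariant modulo `F` coordinatewise under generic
shifts. -/
theorem localize_shift (F : Setoid Y) (E : Setoid Z) (f : (H × G → Z) → (K → Y))
    (hfm : ∀ k k' : K, BaireMeasurableSet {x : (H × G → Z) × (H → G) |
      F (f ((shiftAct H G Z).act x.2 x.1) k) (f x.1 k')})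
    (hf : ∀ y y' : H × G → Z, J2 E y y' → groupJump K F (f y) (f y')) :
    ∃ S : Finset H, ∃ y1 : H × G → Z, ∀ᵇ x : (H × G → Z) × (H → G), ∀ k,
      F (f (patch {i : H × G | i.1 ∈ S} y1 ((shiftAct H G Z).act x.2 x.1)) k)
        (f (patch {i : H × G | i.1 ∈ S} y1 x.1) k) := by
  obtain ⟨S, O, hO, hOne, hS⟩ := localize (I := H × G) (J := H) (P := G) (κ := K)
    (ι := Finset H) (shiftAct H G Z) (fun S => (S : Set H))
    (fun S => {i : H × G | i.1 ∈ S})
    (fun F F' => good_fst F F')
    (fun S q1 q2 y z => shiftAct_compat S q1 q2 y z)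
    (fun k x u => ∀ h : K, F (f u (k⁻¹ * h)) (f x h))
    (fun k => by
      have : {x : (H × G → Z) × (H → G) | ∀ h : K,
          F (f ((shiftAct H G Z).act x.2 x.1) (k⁻¹ * h)) (f x.1 h)} =
          ⋂ h : K, {x : (H × G → Z) × (H → G) |
            F (f ((shiftAct H G Z).act x.2 x.1) (k⁻¹ * h)) (f x.1 h)} := by
        ext x; simp
      rw [this]
      exact BaireMeasurableSet.iInter fun h => hfm _ _)
    (fun u v => ∀ k, F (f v k) (f u k))
    (fun k x u v hu hv j => by
      have e1 := hu (k * j)
      have e2 := hv (k * j)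
      rw [inv_mul_cancel_left] at e1 e2
      exact F.trans e2 (F.symm e1))
    (Eventually.of_forall fun x => hf _ _ (J2_shift E x.2 x.1))
  have h1 := ku (generic_homeo (Homeomorph.prodAssoc _ _ _).symm hS)
  obtain ⟨y1, hy1O, hy1⟩ := exists_of_generic h1 hO hOne
  refine ⟨S, y1, ?_⟩
  filter_upwards [hy1] with x hx
  exact hx hy1O

end Common

section Smooth

variable {H : Type u} {G : Type v} {Y : Type u2} {K : Type u3}
  [Group H] [Countable H] [Infinite H]
  [Group G] [Countable G] [Infinite G]
  [Group K] [Countable K]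
  [TopologicalSpace Y] [PolishSpace Y] [MeasurableSpace Y] [BorelSpace Y]

theorem smooth_case (f : (H → G → Bool) → (K → Y)) (hf : Measurable f)
    (hf' : ∀ α β : H → G → Bool, groupJump H (groupJump G (⊥ : Setoid Bool)) α β ↔
      groupJump K (⊥ : Setoid Y) (f α) (f β)) : False := by
  letI : TopologicalSpace G := ⊥
  haveI : DiscreteTopology G := ⟨rfl⟩
  borelize G
  have hg : Measurable fun y : H × G → Bool => f (cur y) := hf.comp continuous_cur.measurable
  obtain ⟨S, y1, h1⟩ := localize_shift (⊥ : Setoid Y) (⊥ : Setoid Bool)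
    (fun y : H × G → Bool => f (cur y)) (fun k k' => by
      refine MeasurableSet.baireMeasurableSet ?_
      have hact : Measurable fun x : (H × G → Bool) × (H → G) =>
          (shiftAct H G Bool).act x.2 x.1 :=
        ((shiftAct H G Bool).cont.comp (continuous_snd.prodMk continuous_fst)).measurable
      refine measurableSet_eq_fun ?_ ?_
      · exact (measurable_pi_apply k).comp (hg.comp hact)
      · exact (measurable_pi_apply k').comp (hg.comp measurable_fst))
    (fun y y' h => (hf' _ _).1 h)
  set A : Set (H × G) := {i : H × G | i.1 ∈ S} with hA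
  have hpatch : Continuous fun z : H × G → Bool => patch A y1 z :=
    continuous_patch_comp A continuous_const continuous_id
  obtain ⟨c, hc⟩ := ergodic' (shiftAct H G Bool) shiftAct_trans
    (fun z : H × G → Bool => f (cur (patch A y1 z)))
    (fun B hB => ((hg.comp hpatch.measurable) hB).baireMeasurableSet) (by
      filter_upwards [h1] with x hx
      funext k
      exact (hx k).symm)
  obtain ⟨z0, -, hz0⟩ := exists_of_generic hc isOpen_univ univ_nonempty
  obtain ⟨j, hj⟩ := Infinite.exists_notMem_finset S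
  have h2 : ∀ᵇ z : H × G → Bool, ∃ h : H, ∃ g : G, ∀ i : G,
      z (j, g⁻¹ * i) = patch A y1 z0 (h * j, i) := by
    filter_upwards [hc] with z hz
    have e1 : J2 (⊥ : Setoid Bool) (patch A y1 z) (patch A y1 z0) := by
      refine (hf' _ _).2 ?_
      rw [hz, hz0]
    obtain ⟨h, hh⟩ := e1
    obtain ⟨g, hg⟩ := hh (h * j)
    refine ⟨h, g, fun i => ?_⟩
    have e2 := hg i
    rw [inv_mul_cancel_left] at e2
    have e3 : cur (patch A y1 z) j (g⁻¹ * i) = z (j, g⁻¹ * i) :=
      patch_of_notMem (by simpa [hA] using hj) _ _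
    rw [e3] at e2
    exact e2
  have h3 : ∀ᵇ z : H × G → Bool, ∀ h : H, ∀ g : G, ¬ ∀ i : G,
      z (j, g⁻¹ * i) = patch A y1 z0 (h * j, i) := by
    rw [eventually_countable_forall]
    intro h
    rw [eventually_countable_forall]
    intro g
    have ho : IsOpen {z : H × G → Bool | ¬ ∀ i : G, z (j, g⁻¹ * i) = patch A y1 z0 (h * j, i)} := by
      have : {z : H × G → Bool | ¬ ∀ i : G, z (j, g⁻¹ * i) = patch A y1 z0 (h * j, i)} =
          ⋃ i : G, (fun z : H × G → Bool => z (j, g⁻¹ * i)) ⁻¹'
            {b | b ≠ patch A y1 z0 (h * j, i)} := by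
        ext z; simp
      rw [this]
      exact isOpen_iUnion fun i => (isOpen_discrete _).preimage (continuous_apply _)
    refine residual_of_dense_open ho ?_
    rw [dense_iff_inter_open]
    rintro N hN ⟨z, hz⟩
    obtain ⟨F, u, hu, huN⟩ := isOpen_pi_iff.1 hN z hz
    obtain ⟨i, hi⟩ := Infinite.exists_notMem_finset (F.image fun x => g * x.2)
    have hi' : (j, g⁻¹ * i) ∉ F := fun hF => hi (Finset.mem_image.2 ⟨_, hF, by simp⟩)
    refine ⟨Function.update z (j, g⁻¹ * i) (!(patch A y1 z0 (h * j, i))), huN ?_, ?_⟩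
    · intro x hx
      have hne : x ≠ (j, g⁻¹ * i) := fun e => hi' (e ▸ hx)
      rw [Function.update_of_ne hne]
      exact (hu x hx).2
    · intro hall
      have := hall i
      rw [Function.update_self] at this
      exact absurd this (by simp)
  obtain ⟨z, -, ⟨h, g, hz1⟩, hz2⟩ := exists_of_generic (h2.and h3) isOpen_univ univ_nonempty
  exact hz2 h g hz1

end Smooth

section Nonsmooth

variable {H : Type u} {G : Type v} {Z : Type w} {Γ : Type u1} {Y : Type u2} {Λ : Type u3}
  {K : Type u4}
  [Group H] [Countable H] [Infinite H] [Group G] [Countable G] [Infinite G]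
  [TopologicalSpace Z] [PolishSpace Z] [Nonempty Z] [MeasurableSpace Z] [BorelSpace Z]
  [Group Γ] [Countable Γ] [MulAction Γ Z] [ContinuousConstSMul Γ Z]
  [TopologicalSpace Y] [PolishSpace Y] [MeasurableSpace Y] [BorelSpace Y]
  [Group Λ] [Countable Λ] [MulAction Λ Y] [MeasurableConstSMul Λ Y]
  [Group K] [Countable K]

theorem J2_coord [TopologicalSpace Γ] [DiscreteTopology Γ] (p : H × G → Γ) (y : H × G → Z) :
    J2 (orbitRel Γ Z) ((coordAct (H × G) Γ Z).act p y) y := by
  refine J2_of_forall fun a => ⟨1, fun i => ?_⟩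
  rw [inv_one, one_mul, coordAct_apply, orbitRel_apply]
  exact mem_orbit _ _

theorem measurableSet_orbitRel {X : Type u5} [MeasurableSpace X] {a b : X → Y}
    (ha : Measurable a) (hb : Measurable b) :
    MeasurableSet {x | orbitRel Λ Y (a x) (b x)} := by
  have : {x | orbitRel Λ Y (a x) (b x)} = ⋃ l : Λ, {x | l • b x = a x} := by
    ext x
    simp only [mem_ofPred_eq, mem_iUnion, orbitRel_apply]
    exact Iff.rfl
  rw [this]
  exact MeasurableSet.iUnion fun l => measurableSet_eq_fun (hb.const_smul l) ha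

theorem nonsmooth_case
    (htr : ∀ N1 N2 : Set Z, IsOpen N1 → IsOpen N2 → N1.Nonempty →
      N2.Nonempty → ∃ γ : Γ, ∃ z ∈ N1, γ • z ∈ N2)
    (hperf : ∀ z : Z, (𝓝[≠] z).NeBot)
    (f : (H → G → Z) → (K → Y)) (hf : Measurable f)
    (hf' : ∀ α β : H → G → Z, groupJump H (groupJump G (orbitRel Γ Z)) α β ↔
      groupJump K (orbitRel Λ Y) (f α) (f β)) : False := by
  letI : TopologicalSpace G := ⊥
  haveI : DiscreteTopology G := ⟨rfl⟩
  letI : TopologicalSpace Γ := ⊥
  haveI : DiscreteTopology Γ := ⟨rfl⟩
  borelize G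
  borelize Γ
  have hg : Measurable fun y : H × G → Z => f (cur y) := hf.comp continuous_cur.measurable
  have hshift : Measurable fun x : (H × G → Z) × (H → G) => (shiftAct H G Z).act x.2 x.1 :=
    ((shiftAct H G Z).cont.comp (continuous_snd.prodMk continuous_fst)).measurable
  have hcoord : Measurable fun x : (H × G → Z) × (H × G → Γ) =>
      (coordAct (H × G) Γ Z).act x.2 x.1 :=
    ((coordAct (H × G) Γ Z).cont.comp (continuous_snd.prodMk continuous_fst)).measurable
  -- first localization
  obtain ⟨S1, y1, h1⟩ := localize_shift (orbitRel Λ Y) (orbitRel Γ Z)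
    (fun y : H × G → Z => f (cur y)) (fun k k' => by
      refine MeasurableSet.baireMeasurableSet ?_
      refine measurableSet_orbitRel ?_ ?_
      · exact (measurable_pi_apply k).comp (hg.comp hshift)
      · exact (measurable_pi_apply k').comp (hg.comp measurable_fst))
    (fun y y' h => (hf' _ _).1 h)
  set A1 : Set (H × G) := {i : H × G | i.1 ∈ S1} with hA1
  have hpatch1 : Continuous fun z : H × G → Z => patch A1 y1 z :=
    continuous_patch_comp A1 continuous_const continuous_id
  set f1 : (H × G → Z) → (K → Y) := fun z => f (cur (patch A1 y1 z)) with hf1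
  have hf1m : Measurable f1 := hg.comp hpatch1.measurable
  -- second localization
  obtain ⟨S2, O2, hO2, hO2ne, h2⟩ := localize (I := H × G) (J := H × G) (P := Γ) (κ := K)
    (ι := Finset H) (coordAct (H × G) Γ Z) (fun S => {i : H × G | i.1 ∈ S})
    (fun S => {i : H × G | i.1 ∈ S})
    (fun F F' => good_fst' F F')
    (fun S q1 q2 y z => coordAct_compat _ q1 q2 y z)
    (fun k x u => ∀ h : K, orbitRel Λ Y (f1 u (k⁻¹ * h)) (f1 x h))
    (fun k => by
      have : {x : (H × G → Z) × (H × G → Γ) | ∀ h : K,
          orbitRel Λ Y (f1 ((coordAct (H × G) Γ Z).act x.2 x.1) (k⁻¹ * h)) (f1 x.1 h)} =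
          ⋂ h : K, {x : (H × G → Z) × (H × G → Γ) |
            orbitRel Λ Y (f1 ((coordAct (H × G) Γ Z).act x.2 x.1) (k⁻¹ * h)) (f1 x.1 h)} := by
        ext x; simp
      rw [this]
      refine BaireMeasurableSet.iInter fun h => MeasurableSet.baireMeasurableSet ?_
      refine measurableSet_orbitRel ?_ ?_
      · exact (measurable_pi_apply _).comp (hf1m.comp hcoord)
      · exact (measurable_pi_apply _).comp (hf1m.comp measurable_fst))
    (fun u v => ∀ k, orbitRel Λ Y (f1 v k) (f1 u k))
    (fun k x u v hu hv j => by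
      have e1 := hu (k * j)
      have e2 := hv (k * j)
      rw [inv_mul_cancel_left] at e1 e2
      exact (orbitRel Λ Y).trans e2 ((orbitRel Λ Y).symm e1))
    (Eventually.of_forall fun x => by
      have e1 : J2 (orbitRel Γ Z) (patch A1 y1 ((coordAct (H × G) Γ Z).act x.2 x.1))
          (patch A1 y1 x.1) := by
        have e2 := coordAct_compat A1 (1 : H × G → Γ) x.2 y1 x.1
        rw [(coordAct (H × G) Γ Z).one] at e2
        rw [← e2]
        exact J2_coord _ _
      exact (hf' _ _).1 e1)
  set A2 : Set (H × G) := {i : H × G | i.1 ∈ S2} with hA2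
  -- the shift invariance is inherited
  have h3 : ∀ᵇ x : (H × G → Z) × ((H × G → Z) × (H → G)), ∀ k,
      orbitRel Λ Y (f1 (patch A2 x.1 ((shiftAct H G Z).act x.2.2 x.2.1)) k)
        (f1 (patch A2 x.1 x.2.1) k) := by
    have a1 : ∀ᵇ x : ((H × G → Z) × (H × G → Z)) × ((H → G) × (H → G)), ∀ k,
        orbitRel Λ Y (f1 (patch A2 ((shiftAct H G Z).act x.2.1 x.1.1)
          ((shiftAct H G Z).act x.2.2 x.1.2)) k) (f1 (patch A2 x.1.1 x.1.2) k) := by
      have := generic_comp (f := fun x : ((H × G → Z) × (H × G → Z)) × ((H → G) × (H → G)) =>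
        ((patch A2 x.1.1 x.1.2 : H × G → Z), (patch (S2 : Set H) x.2.1 x.2.2 : H → G)))
        (((continuous_patch A2).comp continuous_fst).prodMk
          ((continuous_patch (S2 : Set H)).comp continuous_snd))
        ((isOpenMap_patch A2).prodMap (isOpenMap_patch (S2 : Set H))) h1
      filter_upwards [this] with x hx k
      have e1 := hx k
      simp only [hA2] at e1 ⊢
      rw [shiftAct_compat] at e1
      exact e1
    let e : ((H → G) × ((H × G → Z) × ((H × G → Z) × (H → G)))) ≃ₜ
        ((H × G → Z) × (H × G → Z)) × ((H → G) × (H → G)) :=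
      { toFun := fun x => ((x.2.1, x.2.2.1), (x.1, x.2.2.2))
        invFun := fun x => (x.2.1, (x.1.1, (x.1.2, x.2.2)))
        left_inv := fun x => rfl
        right_inv := fun x => rfl
        continuous_toFun := by fun_prop
        continuous_invFun := by fun_prop }
    have a2 := ku (generic_homeo e a1)
    let U : Set (H → G) := (S2 : Set H).pi fun _ => {1}
    have hU : IsOpen U := isOpen_set_pi (Finset.finite_toSet _) fun i _ => isOpen_discrete _
    obtain ⟨τ, hτU, hτ⟩ := exists_of_generic a2 hU ⟨1, fun i _ => rfl⟩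
    filter_upwards [hτ] with x hx k
    have e1 := hx k
    have e2 : patch A2 ((shiftAct H G Z).act τ x.1) ((shiftAct H G Z).act x.2.2 x.2.1) =
        patch A2 x.1 ((shiftAct H G Z).act x.2.2 x.2.1) := by
      funext i
      by_cases hi : i ∈ A2
      · rw [patch_of_mem hi, patch_of_mem hi, shiftAct_apply]
        have : τ i.1 = 1 := hτU i.1 hi
        rw [this, inv_one, one_mul]
      · rw [patch_of_notMem hi, patch_of_notMem hi]
    have e3 : orbitRel Λ Y (f1 (patch A2 ((shiftAct H G Z).act τ x.1)
        ((shiftAct H G Z).act x.2.2 x.2.1)) k) (f1 (patch A2 x.1 x.2.1) k) := e1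
    rw [e2] at e3
    exact e3
  -- fix the coordinates in `A2`
  have h2' := ku (generic_homeo (Homeomorph.prodAssoc _ _ _).symm h2)
  obtain ⟨y2, hy2O, hy2, hy2'⟩ := exists_of_generic (h2'.and (ku h3)) hO2 hO2ne
  have hpatch2 : Continuous fun z : H × G → Z => patch A2 y2 z :=
    continuous_patch_comp A2 continuous_const continuous_id
  have key : ∀ k : K, ∃ c : Y, ∀ᵇ z : H × G → Z, orbitRel Λ Y (f1 (patch A2 y2 z) k) c := by
    intro k
    refine factor_ergodic htr (fun z => f1 (patch A2 y2 z) k)
      ((measurable_pi_apply k).comp (hf1m.comp hpatch2.measurable)) ?_ ?_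
    · filter_upwards [hy2] with x hx
      exact hx hy2O k
    · filter_upwards [hy2'] with x hx
      exact hx k
  choose c hc using key
  have hc' : ∀ᵇ z : H × G → Z, ∀ k, orbitRel Λ Y (f1 (patch A2 y2 z) k) (c k) := by
    rw [eventually_countable_forall]
    exact hc
  obtain ⟨z0, -, hz0⟩ := exists_of_generic hc' isOpen_univ univ_nonempty
  obtain ⟨j, hj⟩ := Infinite.exists_notMem_finset (S1 ∪ S2)
  rw [Finset.notMem_union] at hj
  set x0 := patch A1 y1 (patch A2 y2 z0) with hx0
  have h4 : ∀ᵇ z : H × G → Z, ∃ h : H, ∃ g : G,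
      orbitRel Γ Z (z (j, g)) (x0 (h * j, 1)) := by
    filter_upwards [hc'] with z hz
    have e1 : J2 (orbitRel Γ Z) (patch A1 y1 (patch A2 y2 z)) x0 := by
      refine (hf' _ _).2 ⟨1, fun k => ?_⟩
      rw [inv_one, one_mul]
      exact (orbitRel Λ Y).trans (hz k) ((orbitRel Λ Y).symm (hz0 k))
    obtain ⟨h, hh⟩ := e1
    obtain ⟨g, hg⟩ := hh (h * j)
    refine ⟨h, g⁻¹, ?_⟩
    have e2 := hg 1
    rw [inv_mul_cancel_left, mul_one] at e2
    have e3 : cur (patch A1 y1 (patch A2 y2 z)) j g⁻¹ = z (j, g⁻¹) := by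
      show patch A1 y1 (patch A2 y2 z) (j, g⁻¹) = z (j, g⁻¹)
      rw [patch_of_notMem (by simpa [hA1] using hj.1),
        patch_of_notMem (by simpa [hA2] using hj.2)]
    rw [e3] at e2
    exact e2
  have h5 : ∀ᵇ z : H × G → Z, ∀ h : H, ∀ g : G,
      ¬ orbitRel Γ Z (z (j, g)) (x0 (h * j, 1)) := by
    rw [eventually_countable_forall]
    intro h
    rw [eventually_countable_forall]
    intro g
    have b1 : ∀ᵇ t : Z, ∀ γ : Γ, t ≠ γ • x0 (h * j, 1) := by
      rw [eventually_countable_forall]
      intro γ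
      haveI := hperf (γ • x0 (h * j, 1))
      exact residual_of_dense_open isOpen_compl_singleton (dense_compl_singleton _)
    have b2 := generic_comp (continuous_apply (A := fun _ : H × G => Z) (j, g))
      (isOpenMap_eval (X := fun _ : H × G => Z) (j, g)) b1
    filter_upwards [b2] with z hz hrel
    rw [orbitRel_apply] at hrel
    obtain ⟨γ, hγ⟩ := hrel
    exact hz γ hγ.symm
  obtain ⟨z, -, ⟨h, g, hz1⟩, hz2⟩ := exists_of_generic (h4.and h5) isOpen_univ univ_nonempty
  exact hz2 h g hz1

end Nonsmooth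

end Pool.Agent.Helper58
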