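import Pool.Agent.Helper58.Shift

/-!
Ergodicity of product-shift relations with respect to countable Borel equivalence relations.
-/

set_option autoImplicit false
set_option linter.unusedSectionVars false

open Topology Filter Set TopologicalSpace MulAction
open scoped Classical

namespace Pool.Agent.Helper58

universe u v w u1 u2 u3 u4 u5

section Factor

variable {H : Type u} {G : Type v} {Z : Type w} {Γ : Type u1} {Y : Type u2} {Λ : Type u3}
  [Countable H] [Group G] [Countable G] [Infinite G] [TopologicalSpace G] [DiscreteTopology G]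
  [TopologicalSpace Z] [PolishSpace Z] [Nonempty Z] [MeasurableSpace Z] [BorelSpace Z]
  [Group Γ] [Countable Γ] [TopologicalSpace Γ] [DiscreteTopology Γ] [MulAction Γ Z]
  [ContinuousConstSMul Γ Z]
  [TopologicalSpace Y] [PolishSpace Y] [MeasurableSpace Y] [BorelSpace Y]
  [Group Λ] [Countable Λ] [MulAction Λ Y] [MeasurableConstSMul Λ Y]

/-- The shift of index sets. -/
theorem factor_step1
    (htr : ∀ N1 N2 : Set Z, IsOpen N1 → IsOpen N2 → N1.Nonempty →
      N2.Nonempty → ∃ γ : Γ, ∃ z ∈ N1, γ • z ∈ N2)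
    (g : (H × G → Z) → Y) (hg : Measurable g)
    (h1 : ∀ᵇ x : (H × G → Z) × (H × G → Γ),
      orbitRel Λ Y (g ((coordAct (H × G) Γ Z).act x.2 x.1)) (g x.1)) :
    ∃ T : Finset (H × G), ∃ O : Set (H × G → Z), IsOpen O ∧ O.Nonempty ∧
      ∃ v0 : H × G → Z, ∀ᵇ x : (H × G → Z) × (H × G → Z), x.1 ∈ O →
        g (patch (T : Set (H × G)) x.1 x.2) = g (patch (T : Set (H × G)) x.1 v0) := by
  borelize Γ
  obtain ⟨T, O, hO, hOne, hT⟩ := localize (I := H × G) (J := H × G) (P := Γ) (κ := Λ)
    (ι := Finset (H × G)) (coordAct (H × G) Γ Z) (fun S => (S : Set (H × G)))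
    (fun S => (S : Set (H × G)))
    (fun F F' => ⟨F ∪ F', by
      simp only [Finset.coe_union]; exact ⟨subset_union_left, subset_union_right⟩⟩)
    (fun S q1 q2 y z => coordAct_compat _ q1 q2 y z)
    (fun γ x u => g u = γ • g x)
    (fun γ => by
      refine MeasurableSet.baireMeasurableSet ?_
      refine measurableSet_eq_fun ?_ ?_
      · exact hg.comp ((coordAct (H × G) Γ Z).cont.comp
          (continuous_snd.prodMk continuous_fst)).measurable
      · exact (hg.comp measurable_fst).const_smul γ)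
    (fun u v => g u = g v)
    (fun γ x u v hu hv => by rw [hu, hv])
    (by
      filter_upwards [h1] with x hx
      obtain ⟨γ, hγ⟩ := orbitRel_apply.1 hx
      exact ⟨γ, hγ.symm⟩)
  have h2 : ∀ᵇ x : (H × G → Z) × ((H × G → Z) × (H × G → Z)), x.1 ∈ O →
      g (patch (T : Set (H × G)) x.1 x.2.1) = g (patch (T : Set (H × G)) x.1 x.2.2) := by
    refine ergodic (V := H × G → Z) (coordAct (H × G) Γ Z) (coordAct_trans htr)
      (fun x : (H × G → Z) × (H × G → Z) => g (patch (T : Set (H × G)) x.1 x.2))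
      (fun B hB => ?_) hO ?_
    · exact ((hg.comp (continuous_patch (T : Set (H × G))).measurable) hB).baireMeasurableSet
    · exact generic_homeo (Homeomorph.prodAssoc _ _ _).symm hT
  let e : ((H × G → Z) × ((H × G → Z) × (H × G → Z))) ≃ₜ
      ((H × G → Z) × ((H × G → Z) × (H × G → Z))) :=
    { toFun := fun x => (x.2.1, (x.2.2, x.1))
      invFun := fun x => (x.2.2, (x.1, x.2.1))
      left_inv := fun x => rfl
      right_inv := fun x => rfl
      continuous_toFun := by fun_prop
      continuous_invFun := by fun_prop }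
  obtain ⟨v0, -, hv0⟩ := exists_of_generic (ku (generic_homeo e h2)) isOpen_univ univ_nonempty
  exact ⟨T, O, hO, hOne, v0, hv0⟩

theorem factor_step2
    (g : (H × G → Z) → Y)
    (h2 : ∀ᵇ x : (H × G → Z) × (H → G),
      orbitRel Λ Y (g ((shiftAct H G Z).act x.2 x.1)) (g x.1))
    (T : Finset (H × G)) (O : Set (H × G → Z)) (hO : IsOpen O) (hOne : O.Nonempty)
    (v0 : H × G → Z)
    (hv0 : ∀ᵇ x : (H × G → Z) × (H × G → Z), x.1 ∈ O →
        g (patch (T : Set (H × G)) x.1 x.2) = g (patch (T : Set (H × G)) x.1 v0)) :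
    ∃ c : Y, ∃ O' : Set (H × G → Z), IsOpen O' ∧ O'.Nonempty ∧
      ∀ᵇ x : H × G → Z, x ∈ O' → orbitRel Λ Y (g x) c := by
  -- choose the shift
  let U : Set (H → G) := {τ | ∀ i ∈ T, ∀ j ∈ T, (τ i.1)⁻¹ * i.2 ≠ j.2}
  have hU : IsOpen U := by
    have : U = ⋂ i ∈ T, ⋂ j ∈ T, {τ : H → G | (τ i.1)⁻¹ * i.2 ≠ j.2} := by
      ext τ; simp [U]
    rw [this]
    refine isOpen_biInter_finset fun i _ => isOpen_biInter_finset fun j _ => ?_
    have hc : Continuous fun τ : H → G => (τ i.1)⁻¹ * i.2 :=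
      (continuous_of_discreteTopology (f := fun t : G => t⁻¹ * i.2)).comp (continuous_apply i.1)
    exact (isOpen_discrete {t : G | t ≠ j.2}).preimage hc
  have hUne : U.Nonempty := by
    obtain ⟨t, ht⟩ := exists_move T T
    exact ⟨fun _ => t, fun i hi j hj => ht i hi j hj⟩
  obtain ⟨τ, hτU, hτ'⟩ := exists_of_generic
    (ku (generic_homeo (Homeomorph.prodComm (H → G) (H × G → Z)) h2)) hU hUne
  have hτ : ∀ᵇ y, orbitRel Λ Y (g ((shiftAct H G Z).act τ y)) (g y) := hτ'
  set s := (shiftAct H G Z) with hs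
  let D : Set (H × G) := {i | (i.1, τ i.1 * i.2) ∈ T}
  let D' : Set (H × G) := {i | (i.1, (τ i.1)⁻¹ * i.2) ∈ T}
  let A : Set (H × G) := (T : Set (H × G))
  -- the generic point w
  let w : (H × G → Z) × ((H × G → Z) × (H × G → Z)) → (H × G → Z) := fun x =>
    patch A x.1 (patch D (s.act τ⁻¹ x.2.1) x.2.2)
  have hw : ∀ x, s.act τ (w x) = patch A x.2.1
      (patch D' (s.act τ x.1) (s.act τ x.2.2)) := by
    intro x
    funext i
    by_cases hi : i ∈ T
    · have h1 : (i.1, (τ i.1)⁻¹ * i.2) ∉ A := fun h => hτU i hi _ h rfl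
      have h2 : (i.1, (τ i.1)⁻¹ * i.2) ∈ D := by
        show (i.1, τ i.1 * ((τ i.1)⁻¹ * i.2)) ∈ T
        rwa [mul_inv_cancel_left]
      have hiA : i ∈ A := hi
      simp only [hs, w, shiftAct_apply, patch, h1, h2, hiA, if_true, if_false,
        Pi.inv_apply, inv_inv, mul_inv_cancel_left]
    · have hiA : i ∉ A := hi
      by_cases hi' : i ∈ D'
      · have h1 : (i.1, (τ i.1)⁻¹ * i.2) ∈ A := hi'
        simp only [hs, w, shiftAct_apply, patch, h1, hi', hiA, if_true, if_false]
      · have h1 : (i.1, (τ i.1)⁻¹ * i.2) ∉ A := hi'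
        have h2 : (i.1, (τ i.1)⁻¹ * i.2) ∉ D := by
          show ¬ (i.1, τ i.1 * ((τ i.1)⁻¹ * i.2)) ∈ T
          rwa [mul_inv_cancel_left]
        simp only [hs, w, shiftAct_apply, patch, h1, h2, hi', hiA, if_false]
  -- the map (y, (y', v)) ↦ (y, D-patch)
  let m1 : (H × G → Z) × ((H × G → Z) × (H × G → Z)) → (H × G → Z) × (H × G → Z) := fun x =>
    (x.1, patch D (s.act τ⁻¹ x.2.1) x.2.2)
  have m1c : Continuous m1 := by
    refine continuous_fst.prodMk (continuous_patch_comp D ?_ ?_)
    · exact (s.continuous_act τ⁻¹).comp (continuous_fst.comp continuous_snd)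
    · exact continuous_snd.comp continuous_snd
  have m1o : IsOpenMap m1 := by
    have : m1 = Prod.map id ((fun x : (H × G → Z) × (H × G → Z) => patch D x.1 x.2) ∘
      (Prod.map (s.act τ⁻¹) id)) := rfl
    rw [this]
    exact IsOpenMap.id.prodMap ((isOpenMap_patch D).comp
      ((s.homeo τ⁻¹).isOpenMap.prodMap IsOpenMap.id))
  let m2 : (H × G → Z) × ((H × G → Z) × (H × G → Z)) → (H × G → Z) × (H × G → Z) := fun x =>
    (x.2.1, patch D' (s.act τ x.1) (s.act τ x.2.2))
  have m2c : Continuous m2 := by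
    refine (continuous_fst.comp continuous_snd).prodMk (continuous_patch_comp D' ?_ ?_)
    · exact (s.continuous_act τ).comp continuous_fst
    · exact (s.continuous_act τ).comp (continuous_snd.comp continuous_snd)
  let e : ((H × G → Z) × ((H × G → Z) × (H × G → Z))) ≃ₜ
      ((H × G → Z) × ((H × G → Z) × (H × G → Z))) :=
    { toFun := fun x => (x.2.1, (x.1, x.2.2))
      invFun := fun x => (x.2.1, (x.1, x.2.2))
      left_inv := fun x => rfl
      right_inv := fun x => rfl
      continuous_toFun := by fun_prop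
      continuous_invFun := by fun_prop }
  have m2o : IsOpenMap m2 := by
    have : m2 = Prod.map id ((fun x : (H × G → Z) × (H × G → Z) => patch D' x.1 x.2) ∘
      (Prod.map (s.act τ) (s.act τ))) ∘ e := rfl
    rw [this]
    exact (IsOpenMap.id.prodMap ((isOpenMap_patch D').comp
      ((s.homeo τ).isOpenMap.prodMap (s.homeo τ).isOpenMap))).comp e.isOpenMap
  have wc : Continuous w := (continuous_patch A).comp m1c
  have wo : IsOpenMap w := (isOpenMap_patch A).comp m1o
  have k1 := generic_comp m1c m1o hv0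
  have k2 := generic_comp m2c m2o hv0
  have k3 := generic_comp wc wo hτ
  have k4 : ∀ᵇ x : (H × G → Z) × ((H × G → Z) × (H × G → Z)), x.1 ∈ O → x.2.1 ∈ O →
      orbitRel Λ Y (g (patch A x.2.1 v0)) (g (patch A x.1 v0)) := by
    filter_upwards [k1, k2, k3] with x h1 h2 h3 hx1 hx2
    rw [hw x, h2 hx2, h1 hx1] at h3
    exact h3
  obtain ⟨c0, hc0O, hc0⟩ := exists_of_generic (ku k4) hO hOne
  have k5 := ku hc0
  have k6 : ∀ᵇ y : H × G → Z, y ∈ O →
      orbitRel Λ Y (g (patch A y v0)) (g (patch A c0 v0)) := by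
    filter_upwards [k5] with y hy hyO
    obtain ⟨v, -, hv⟩ := exists_of_generic hy isOpen_univ univ_nonempty
    exact hv hc0O hyO
  have k7 : ∀ᵇ x : (H × G → Z) × (H × G → Z), x.1 ∈ O →
      orbitRel Λ Y (g (patch A x.1 x.2)) (g (patch A c0 v0)) := by
    filter_upwards [hv0, generic_fst (Y := H × G → Z) k6] with x hx1 hx2 hxO
    have e1 := hx2 hxO
    rw [← hx1 hxO] at e1
    exact e1
  have k8 := generic_homeo (patchHomeo A) k7
  have k9 : ∀ᵇ x : (H × G → Z) × (H × G → Z), patch A x.2 x.1 ∈ O →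
      orbitRel Λ Y (g x.2) (g (patch A c0 v0)) := by
    have k8' : ∀ᵇ x : (H × G → Z) × (H × G → Z), patch A x.2 x.1 ∈ O →
        orbitRel Λ Y (g (patch A (patch A x.2 x.1) (patch A x.1 x.2))) (g (patch A c0 v0)) :=
      generic_homeo (Homeomorph.prodComm (H × G → Z) (H × G → Z)) k8
    filter_upwards [k8'] with x hx hxO
    have e1 := hx hxO
    have e2 : patch A (patch A x.2 x.1) (patch A x.1 x.2) = x.2 := by
      funext i
      by_cases hi : i ∈ A <;> simp [patch, hi]
    rw [e2] at e1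
    exact e1
  obtain ⟨x', hx'O, hx'⟩ := exists_of_generic (ku k9) hO hOne
  refine ⟨g (patch A c0 v0), {x | patch A x x' ∈ O}, ?_, ⟨x', ?_⟩, ?_⟩
  · exact hO.preimage ((continuous_patch A).comp (continuous_id.prodMk continuous_const))
  · show patch A x' x' ∈ O
    rw [patch_self]; exact hx'O
  · filter_upwards [hx'] with x hx hxO
    exact hx hxO

theorem factor_ergodic
    (htr : ∀ N1 N2 : Set Z, IsOpen N1 → IsOpen N2 → N1.Nonempty →
      N2.Nonempty → ∃ γ : Γ, ∃ z ∈ N1, γ • z ∈ N2)
    (g : (H × G → Z) → Y) (hg : Measurable g)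
    (h1 : ∀ᵇ x : (H × G → Z) × (H × G → Γ),
      orbitRel Λ Y (g ((coordAct (H × G) Γ Z).act x.2 x.1)) (g x.1))
    (h2 : ∀ᵇ x : (H × G → Z) × (H → G),
      orbitRel Λ Y (g ((shiftAct H G Z).act x.2 x.1)) (g x.1)) :
    ∃ c : Y, ∀ᵇ x : H × G → Z, orbitRel Λ Y (g x) c := by
  obtain ⟨T, O, hO, hOne, v0, hv0⟩ := factor_step1 htr g hg h1
  obtain ⟨c, O', hO', hO'ne, hc⟩ := factor_step2 g h2 T O hO hOne v0 hv0
  refine ⟨c, ?_⟩
  have hM : MeasurableSet {y : Y | orbitRel Λ Y y c} := by
    have : {y : Y | orbitRel Λ Y y c} = range fun l : Λ => l • c := by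
      ext y; exact orbitRel_apply
    rw [this]
    exact (countable_range _).measurableSet
  obtain ⟨b, hb⟩ := ergodic' (coordAct (H × G) Γ Z) (coordAct_trans htr)
    (fun x => decide (orbitRel Λ Y (g x) c)) (fun B hB => by
      refine MeasurableSet.baireMeasurableSet ?_
      have hm : Measurable fun x : H × G → Z => decide (orbitRel Λ Y (g x) c) := by
        refine measurable_to_bool ?_
        have : (fun x : H × G → Z => decide (orbitRel Λ Y (g x) c)) ⁻¹' {true} =
            g ⁻¹' {y : Y | orbitRel Λ Y y c} := by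
          ext x; simp
        rw [this]
        exact hg hM
      exact hm hB) (by
      filter_upwards [h1] with x hx
      rw [decide_eq_decide]
      exact ⟨fun h => (orbitRel Λ Y).trans hx h, fun h => (orbitRel Λ Y).trans
        ((orbitRel Λ Y).symm hx) h⟩)
  obtain ⟨x, hxO', hx1, hx2⟩ := exists_of_generic (hb.and hc) hO' hO'ne
  have hbt : b = true := by rw [← hx1]; exact decide_eq_true (hx2 hxO')
  filter_upwards [hb] with y hy
  rw [hbt] at hy
  exact of_decide_eq_true hy

end Factor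

end Pool.Agent.Helper58
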