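import Mathlib

/-!
Baire category tools: the easy half of the Kuratowski-Ulam theorem and consequences.
-/

set_option autoImplicit false

open Topology Filter Set TopologicalSpace

namespace Pool.Agent.Helper58

universe u v w

section KU

variable {X : Type u} {Y : Type v} [TopologicalSpace X] [TopologicalSpace Y]

/-- Kuratowski-Ulam (forward direction). -/
theorem ku [SecondCountableTopology Y] {p : X × Y → Prop}
    (hp : ∀ᵇ z, p z) : ∀ᵇ x, ∀ᵇ y, p (x, y) := by
  have hp' : {z | p z} ∈ residual (X × Y) := hp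
  rw [mem_residual_iff] at hp'
  obtain ⟨S, hSo, hSd, hSc, hS⟩ := hp'
  have key : ∀ t ∈ S, ∀ᵇ x, ∀ᵇ y, (x, y) ∈ t := by
    intro t ht
    have hto := hSo t ht
    have htd := hSd t ht
    obtain ⟨b, hbc, hbe, hb⟩ := exists_countable_basis Y
    have h1 : ∀ V ∈ b, ∀ᵇ x : X, ∃ y ∈ V, (x, y) ∈ t := by
      intro V hV
      have hVo : IsOpen V := hb.isOpen hV
      have hVne : V.Nonempty := by
        rw [nonempty_iff_ne_empty]; rintro rfl; exact hbe hV
      have heq : {x : X | ∃ y ∈ V, (x, y) ∈ t} = Prod.fst '' (t ∩ (univ ×ˢ V)) := by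
        ext x
        constructor
        · rintro ⟨y, hy, hxy⟩
          exact ⟨(x, y), ⟨hxy, ⟨trivial, hy⟩⟩, rfl⟩
        · rintro ⟨⟨x', y⟩, ⟨h1, h2⟩, rfl⟩
          exact ⟨y, h2.2, h1⟩
      have ho : IsOpen {x : X | ∃ y ∈ V, (x, y) ∈ t} := by
        rw [heq]
        exact isOpenMap_fst _ (hto.inter (isOpen_univ.prod hVo))
      refine residual_of_dense_open ho ?_
      rw [dense_iff_inter_open]
      intro U hU hUne
      obtain ⟨⟨x, y⟩, hz1, hz2⟩ := (dense_iff_inter_open.1 htd) (U ×ˢ V) (hU.prod hVo)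
        (hUne.prod hVne)
      exact ⟨x, hz1.1, y, hz1.2, hz2⟩
    have h2 : ∀ᵇ x : X, ∀ V ∈ b, ∃ y ∈ V, (x, y) ∈ t := by
      rw [eventually_countable_ball hbc]
      exact h1
    filter_upwards [h2] with x hx
    refine residual_of_dense_open (s := {y | (x, y) ∈ t})
      (hto.preimage (Continuous.prodMk_right x)) ?_
    rw [hb.dense_iff]
    intro V hV hVne
    obtain ⟨y, hy, hxy⟩ := hx V hV
    exact ⟨y, hy, hxy⟩
  have h3 : ∀ᵇ x, ∀ t ∈ S, ∀ᵇ y, (x, y) ∈ t := by
    rw [eventually_countable_ball hSc]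
    exact key
  filter_upwards [h3] with x hx
  have : ∀ᵇ y, ∀ t ∈ S, (x, y) ∈ t := by
    rw [eventually_countable_ball hSc]
    exact hx
  filter_upwards [this] with y hy
  exact hS (mem_sInter.2 hy)

/-- Generic properties pull back along homeomorphisms. -/
theorem generic_homeo (h : X ≃ₜ Y) {p : Y → Prop} (hp : ∀ᵇ y, p y) : ∀ᵇ x, p (h x) :=
  (tendsto_residual_of_isOpenMap h.continuous h.isOpenMap) hp

/-- Generic properties pull back along continuous open maps. -/
theorem generic_comp {f : X → Y} (hc : Continuous f) (ho : IsOpenMap f) {p : Y → Prop}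
    (hp : ∀ᵇ y, p y) : ∀ᵇ x, p (f x) :=
  (tendsto_residual_of_isOpenMap hc ho) hp

theorem generic_fst {p : X → Prop} (hp : ∀ᵇ x, p x) : ∀ᵇ z : X × Y, p z.1 :=
  generic_comp continuous_fst isOpenMap_fst hp

theorem generic_snd {p : Y → Prop} (hp : ∀ᵇ x, p x) : ∀ᵇ z : X × Y, p z.2 :=
  generic_comp continuous_snd isOpenMap_snd hp

/-- In a Baire space a generic property holds somewhere in each nonempty open set. -/
theorem exists_of_generic [BaireSpace X] {p : X → Prop} (hp : ∀ᵇ x, p x) {U : Set X}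
    (hU : IsOpen U) (hne : U.Nonempty) : ∃ x ∈ U, p x := by
  obtain ⟨x, hx, hpx⟩ := (dense_of_mem_residual hp).inter_open_nonempty U hU hne
  exact ⟨x, hx, hpx⟩

/-- If a countable family of sets with the Baire property covers generically a nonempty open set,
then one of them is comeager in some nonempty open subset. -/
theorem exists_open_of_cover [BaireSpace X] {κ : Type w} [Countable κ] {C : κ → Set X}
    (hC : ∀ k, BaireMeasurableSet (C k)) {O : Set X} (hO : IsOpen O) (hne : O.Nonempty)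
    (hcov : ∀ᵇ x, x ∈ O → ∃ k, x ∈ C k) :
    ∃ k, ∃ U : Set X, IsOpen U ∧ U.Nonempty ∧ U ⊆ O ∧ ∀ᵇ x, x ∈ U → x ∈ C k := by
  choose u huo hu using fun k => (hC k).residualEq_isOpen
  have h1 : ∀ᵇ x, ∀ k, (x ∈ C k ↔ x ∈ u k) := by
    rw [eventually_countable_forall]
    intro k
    filter_upwards [eventuallyEq_set.1 (hu k)] with x hx
    exact hx
  obtain ⟨x, hxO, hx1, hx2⟩ := exists_of_generic (hcov.and h1) hO hne
  obtain ⟨k, hk⟩ := hx1 hxO
  refine ⟨k, u k ∩ O, (huo k).inter hO, ⟨x, (hx2 k).1 hk, hxO⟩, inter_subset_right, ?_⟩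
  filter_upwards [h1] with y hy hyU
  exact (hy k).2 hyU.1

end KU

end Pool.Agent.Helper58
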