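import Pool.Agent.Helper58.Cases

/-!
The dichotomy for continuous actions of countable groups, topology refinement for Borel actions,
and the main theorem.
-/

set_option autoImplicit false
set_option linter.unusedSectionVars false
set_option linter.style.haveILetI false

open Topology Filter Set TopologicalSpace MulAction

namespace Pool.Agent.Helper58

universe u v w u1 u2 u3 u4 u5

section Dichotomy

variable {Γ : Type u1} {X : Type w} [Group Γ] [MulAction Γ X] [TopologicalSpace X]
  [ContinuousConstSMul Γ X]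

/-- The closure of an orbit, as an invariant set. -/
def orbitClosure (Γ : Type u1) {X : Type w} [Group Γ] [MulAction Γ X] [TopologicalSpace X]
    [ContinuousConstSMul Γ X] (x : X) : SubMulAction Γ X where
  carrier := closure (orbit Γ x)
  smul_mem' := fun c _ hy => map_mem_closure (continuous_const_smul c) hy
    (by rintro _ ⟨γ, rfl⟩; exact ⟨c * γ, mul_smul c γ x⟩)

theorem mem_orbitClosure (x : X) (γ : Γ) : γ • x ∈ orbitClosure Γ x :=
  subset_closure (mem_orbit x γ)

instance orbitClosure_continuousConstSMul (x : X) :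
    ContinuousConstSMul Γ (orbitClosure Γ x) :=
  ⟨fun c => Continuous.subtype_mk ((continuous_const_smul c).comp continuous_subtype_val) _⟩

theorem orbitClosure_polish [PolishSpace X] (x : X) : PolishSpace (orbitClosure Γ x) :=
  isClosed_closure.polishSpace

theorem orbitClosure_hit (x : X) {N : Set (orbitClosure Γ x)} (hN : IsOpen N) (hne : N.Nonempty) :
    ∃ γ : Γ, (⟨γ • x, mem_orbitClosure x γ⟩ : orbitClosure Γ x) ∈ N := by
  obtain ⟨U, hU, rfl⟩ := isOpen_induced_iff.1 hN
  obtain ⟨⟨z, hz⟩, hzU⟩ := hne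
  have hz' : z ∈ closure (orbit Γ x) := hz
  obtain ⟨y, hyU, γ, rfl⟩ := mem_closure_iff.1 hz' U hU hzU
  exact ⟨γ, hyU⟩

theorem orbitClosure_trans (x : X) (N1 N2 : Set (orbitClosure Γ x)) (h1 : IsOpen N1)
    (h2 : IsOpen N2) (hne1 : N1.Nonempty) (hne2 : N2.Nonempty) :
    ∃ γ : Γ, ∃ z ∈ N1, γ • z ∈ N2 := by
  obtain ⟨γ1, hγ1⟩ := orbitClosure_hit x h1 hne1
  obtain ⟨γ2, hγ2⟩ := orbitClosure_hit x h2 hne2
  refine ⟨γ2 * γ1⁻¹, _, hγ1, ?_⟩
  convert hγ2 using 1
  refine Subtype.ext ?_
  show (γ2 * γ1⁻¹) • γ1 • x = γ2 • x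
  rw [smul_smul, inv_mul_cancel_right]

theorem orbitClosure_perfect [T1Space X] (x : X)
    (hx : ∀ U : Set X, IsOpen U → x ∈ U → ∃ γ : Γ, γ • x ∈ U ∧ γ • x ≠ x)
    (z : orbitClosure Γ x) : (𝓝[≠] z).NeBot := by
  rw [neBot_iff]
  intro hbot
  have ho : IsOpen ({z} : Set (orbitClosure Γ x)) := (isOpen_singleton_iff_punctured_nhds z).2 hbot
  obtain ⟨γ1, hγ1⟩ := orbitClosure_hit x ho (singleton_nonempty z)
  obtain ⟨U, hU, hUz⟩ := isOpen_induced_iff.1 ho
  have hz : (z : X) = γ1 • x := by
    have : (⟨γ1 • x, mem_orbitClosure x γ1⟩ : orbitClosure Γ x) = z := hγ1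
    rw [← this]
  have hzU : (z : X) ∈ U := by
    have : z ∈ (Subtype.val ⁻¹' U : Set (orbitClosure Γ x)) := by rw [hUz]; rfl
    exact this
  obtain ⟨γ, hγ, hne⟩ := hx ((fun y => γ1 • y) ⁻¹' U) (hU.preimage (continuous_const_smul γ1))
    (by show γ1 • x ∈ U; rw [← hz]; exact hzU)
  have h1 : (⟨(γ1 * γ) • x, mem_orbitClosure x _⟩ : orbitClosure Γ x) ∈
      (Subtype.val ⁻¹' U : Set (orbitClosure Γ x)) := by
    show (γ1 * γ) • x ∈ U
    rw [mul_smul]; exact hγ
  rw [hUz] at h1
  have h2 : (γ1 * γ) • x = (z : X) := congrArg Subtype.val h1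
  rw [hz, mul_smul] at h2
  exact hne (smul_left_cancel γ1 h2)

theorem polish_nat {Y : Type u} [TopologicalSpace Y] [PolishSpace Y] : PolishSpace (ℕ → Y) :=
  inferInstance

theorem polish_nat_bool : PolishSpace (ℕ → Bool) := polish_nat

/-- If every point is isolated in its orbit, then the orbit relation is smooth. -/
theorem smooth_of_isolated [SecondCountableTopology X] [T1Space X] [Countable Γ]
    [MeasurableSpace X] [BorelSpace X]
    (h : ∀ x : X, ∃ U : Set X, IsOpen U ∧ x ∈ U ∧ ∀ γ : Γ, γ • x ∈ U → γ • x = x) :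
    ∃ s : X → (ℕ → Bool), Measurable s ∧ ∀ x y, orbitRel Γ X x y ↔ s x = s y := by
  classical
  obtain ⟨b, hb⟩ := exists_countable_basis X
  obtain ⟨hbc, -, hbb⟩ := hb
  have hbne : b.Nonempty ∨ b = ∅ := by
    rcases b.eq_empty_or_nonempty with h | h
    · exact Or.inr h
    · exact Or.inl h
  rcases hbne with hbne | hbe
  swap
  · refine ⟨fun _ _ => true, measurable_const, fun x y => ?_⟩
    exfalso
    have := hbb.exists_subset_of_mem_open (mem_univ x) isOpen_univ
    rw [hbe] at this
    simp at this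
  obtain ⟨U, hU⟩ := hbc.exists_eq_range hbne
  have hUo : ∀ n, IsOpen (U n) := fun n => hbb.isOpen (by rw [hU]; exact mem_range_self n)
  refine ⟨fun x n => decide (∃ γ : Γ, γ • x ∈ U n), ?_, fun x y => ⟨fun hxy => ?_, fun hs => ?_⟩⟩
  · refine measurable_pi_lambda _ fun n => measurable_to_bool ?_
    have : (fun x : X => decide (∃ γ : Γ, γ • x ∈ U n)) ⁻¹' {true} =
        ⋃ γ : Γ, (fun x => γ • x) ⁻¹' U n := by
      ext x; simp
    rw [this]
    exact (isOpen_iUnion fun γ => (hUo n).preimage (continuous_const_smul γ)).measurableSet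
  · obtain ⟨δ, rfl⟩ := orbitRel_apply.1 hxy
    funext n
    simp only [decide_eq_decide]
    constructor
    · rintro ⟨γ, hγ⟩
      exact ⟨γ * δ, by rw [mul_smul]; exact hγ⟩
    · rintro ⟨γ, hγ⟩
      exact ⟨γ * δ⁻¹, by rw [mul_smul]; simpa using hγ⟩
  · -- same closures
    have hiff : ∀ n, (∃ γ : Γ, γ • x ∈ U n) ↔ ∃ γ : Γ, γ • y ∈ U n := fun n => by
      have := congrFun hs n
      simpa only [decide_eq_decide] using this
    obtain ⟨V, hV, hxV, hV'⟩ := h x
    obtain ⟨W, hWb, hxW, hWV⟩ := hbb.exists_subset_of_mem_open hxV hV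
    rw [hU] at hWb
    obtain ⟨n, rfl⟩ := hWb
    obtain ⟨δ, hδ⟩ := (hiff n).1 ⟨1, by rw [one_smul]; exact hxW⟩
    -- δ • y lies in the closure of the orbit of x
    suffices hδx : δ • y = x by
      refine orbitRel_apply.2 ⟨δ, hδx⟩
    by_contra hne
    -- separate δ • y from x inside U n
    have ho : IsOpen (U n ∩ {x}ᶜ) := (hUo n).inter isOpen_compl_singleton
    obtain ⟨W, hWb, hyW, hWs⟩ := hbb.exists_subset_of_mem_open
      (show δ • y ∈ U n ∩ {x}ᶜ from ⟨hδ, hne⟩) ho
    rw [hU] at hWb
    obtain ⟨m, rfl⟩ := hWb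
    obtain ⟨γ, hγ⟩ := (hiff m).2 ⟨δ, hyW⟩
    exact (hWs hγ).2 (hV' γ (hWV (hWs hγ).1))

end Dichotomy

section Continuous

variable {H : Type u} {G : Type v} {X : Type w} {Γ : Type u1} {K : Type u4}
  [Group H] [Countable H] [Infinite H] [Group G] [Countable G] [Infinite G]
  [TopologicalSpace X] [PolishSpace X] [MeasurableSpace X] [BorelSpace X]
  [Group Γ] [Countable Γ] [MulAction Γ X] [ContinuousConstSMul Γ X]
  [Group K] [Countable K]

theorem continuous_case (hne : ∃ x y : X, ¬ orbitRel Γ X x y)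
    (f : (H → G → X) → (K → X)) (hf : Measurable f)
    (hf' : ∀ α β : H → G → X, groupJump H (groupJump G (orbitRel Γ X)) α β ↔
      groupJump K (orbitRel Γ X) (f α) (f β)) : False := by
  by_cases hrec : ∃ x : X, ∀ U : Set X, IsOpen U → x ∈ U → ∃ γ : Γ, γ • x ∈ U ∧ γ • x ≠ x
  · obtain ⟨x, hx⟩ := hrec
    haveI := orbitClosure_polish (Γ := Γ) x
    haveI : Nonempty (orbitClosure Γ x) := ⟨⟨(1 : Γ) • x, mem_orbitClosure x 1⟩⟩
    have hrel : ∀ z z' : orbitClosure Γ x,
        orbitRel Γ (orbitClosure Γ x) z z' ↔ orbitRel Γ X (z : X) (z' : X) := by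
      intro z z'
      rw [orbitRel_apply, orbitRel_apply]
      constructor
      · rintro ⟨γ, rfl⟩
        exact ⟨γ, rfl⟩
      · rintro ⟨γ, hγ⟩
        exact ⟨γ, Subtype.ext hγ⟩
    refine nonsmooth_case (Z := orbitClosure Γ x) (Γ := Γ) (Y := X) (Λ := Γ) (K := K) (H := H)
      (G := G) (orbitClosure_trans x) (orbitClosure_perfect x hx)
      (fun α => f fun h g => (α h g : X)) (hf.comp ?_) (fun α β => ?_)
    · exact measurable_pi_lambda _ fun h => measurable_pi_lambda _ fun g =>
        measurable_subtype_coe.comp ((measurable_pi_apply g).comp (measurable_pi_apply h))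
    · rw [← hf']
      exact exists_congr fun h => forall_congr' fun h' => exists_congr fun g =>
        forall_congr' fun i => hrel _ _
  · push Not at hrec
    obtain ⟨s, hs, hs'⟩ := smooth_of_isolated (Γ := Γ) (X := X) (fun x => by
      obtain ⟨U, hU, hxU, h⟩ := hrec x
      exact ⟨U, hU, hxU, h⟩)
    obtain ⟨a, b, hab⟩ := hne
    let ι : Bool → X := fun t => if t then a else b
    have hι : ∀ t t' : Bool, (⊥ : Setoid Bool) t t' ↔ orbitRel Γ X (ι t) (ι t') := by
      intro t t'
      have hba : ¬ orbitRel Γ X b a := fun h => hab ((orbitRel Γ X).symm h)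
      have haa : orbitRel Γ X a a := (orbitRel Γ X).refl a
      have hbb : orbitRel Γ X b b := (orbitRel Γ X).refl b
      cases t <;> cases t' <;> simp [ι, hab, hba]
    haveI : PolishSpace (ℕ → Bool) := polish_nat_bool
    refine smooth_case (Y := ℕ → Bool) (K := K) (H := H) (G := G)
      (fun α k => s (f (fun h g => ι (α h g)) k)) ?_ (fun α β => ?_)
    · refine measurable_pi_lambda _ fun k => hs.comp ((measurable_pi_apply k).comp (hf.comp ?_))
      exact measurable_pi_lambda _ fun h => measurable_pi_lambda _ fun g =>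
        (measurable_of_countable ι).comp ((measurable_pi_apply g).comp (measurable_pi_apply h))
    · have e1 : groupJump H (groupJump G (⊥ : Setoid Bool)) α β ↔
          groupJump H (groupJump G (orbitRel Γ X)) (fun h g => ι (α h g))
            (fun h g => ι (β h g)) :=
        exists_congr fun h => forall_congr' fun h' => exists_congr fun g =>
          forall_congr' fun i => hι _ _
      rw [e1, hf']
      exact exists_congr fun k => forall_congr' fun h => hs' _ _

end Continuous

section Refine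

variable {Γ : Type u1} {X : Type w} [Group Γ] [Countable Γ] [MulAction Γ X]

/-- One refinement step. -/
theorem refine_step (t t1 : TopologicalSpace X) (ht : @PolishSpace X t) (ht1 : @PolishSpace X t1)
    (h1 : t1 ≤ t) (hΓ : ∀ γ : Γ, @Measurable X X (@borel X t) (@borel X t) (fun x => γ • x)) :
    ∃ t2 : TopologicalSpace X, t2 ≤ t1 ∧ @PolishSpace X t2 ∧
      ∀ γ : Γ, @Continuous X X t2 t1 (fun x => γ • x) := by
  have hb : @borel X t1 = @borel X t := MeasureTheory.borel_eq_borel_of_le ht1 ht h1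
  letI := t1
  haveI := ht1
  letI : MeasurableSpace X := borel X
  haveI : BorelSpace X := ⟨rfl⟩
  have hm : Measurable fun (x : X) (γ : Γ) => γ • x := by
    refine measurable_pi_lambda _ fun γ => ?_
    have := hΓ γ
    rw [← hb] at this
    exact this
  obtain ⟨t2, h2, hc, hp⟩ := hm.exists_continuous
  refine ⟨t2, h2, hp, fun γ => ?_⟩
  exact @Continuous.comp X (Γ → X) X t2 (@Pi.topologicalSpace Γ (fun _ => X) fun _ => t1) t1 _ _
    (@continuous_apply Γ (fun _ => X) (fun _ => t1) γ) hc

/-- A Borel action of a countable group on a Polish space is continuous for some finer Polish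
topology. -/
theorem exists_refinement (t : TopologicalSpace X) (ht : @PolishSpace X t)
    (hΓ : ∀ γ : Γ, @Measurable X X (@borel X t) (@borel X t) (fun x => γ • x)) :
    ∃ t' : TopologicalSpace X, t' ≤ t ∧ @PolishSpace X t' ∧
      ∀ γ : Γ, @Continuous X X t' t' (fun x => γ • x) := by
  let S := {t1 : TopologicalSpace X // t1 ≤ t ∧ @PolishSpace X t1}
  have step : ∀ s : S, ∃ s' : S, s'.1 ≤ s.1 ∧
      ∀ γ : Γ, @Continuous X X s'.1 s.1 (fun x => γ • x) := by
    rintro ⟨t1, h1, hp1⟩
    obtain ⟨t2, h2, hp2, hc⟩ := refine_step t t1 ht hp1 h1 hΓ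
    exact ⟨⟨t2, h2.trans h1, hp2⟩, h2, hc⟩
  choose next hnext hnextc using step
  let T : ℕ → S := fun n => Nat.rec ⟨t, le_rfl, ht⟩ (fun _ s => next s) n
  have hT : ∀ n, T (n + 1) = next (T n) := fun n => rfl
  refine ⟨⨅ n, (T n).1, iInf_le _ 0, ?_, fun γ => ?_⟩
  · exact PolishSpace.iInf ⟨0, fun n => (T n).2.1⟩ fun n => (T n).2.2
  · rw [continuous_iInf_rng]
    intro n
    have h1 : @Continuous X X (T (n + 1)).1 (T n).1 (fun x => γ • x) := by
      rw [hT]; exact hnextc (T n) γ
    exact continuous_iInf_dom (i := n + 1) h1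

end Refine

/-- The main non-reducibility theorem for orbit equivalence relations. -/
theorem not_borelReducible_orbitRel {G : Type u} {H : Type v} {K : Type w} {Γ : Type u1}
    {X : Type u2} [Group G] [Countable G] [Infinite G] [Group H] [Countable H] [Infinite H]
    [Group K] [Countable K] [t : TopologicalSpace X] [PolishSpace X]
    [Group Γ] [Countable Γ] [MulAction Γ X]
    (hΓ : ∀ γ : Γ, @Measurable X X (borel X) (borel X) (fun x => γ • x))
    (hne : ∃ x y : X, ¬ orbitRel Γ X x y) :
    ¬ BorelReducible (groupJump H (groupJump G (orbitRel Γ X)))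
      (groupJump K (orbitRel Γ X)) := by
  rintro ⟨f, hf, hf'⟩
  letI mX : MeasurableSpace X := borel X
  haveI : BorelSpace X := ⟨rfl⟩
  have hfm : Measurable f := by
    have e1 : borel (H → G → X) = MeasurableSpace.pi := (BorelSpace.measurable_eq).symm
    have e2 : borel (K → X) = MeasurableSpace.pi := (BorelSpace.measurable_eq).symm
    rw [e1, e2] at hf
    exact hf
  obtain ⟨t', ht', hp', hc'⟩ := exists_refinement t inferInstance hΓ
  have hb : @borel X t' = mX :=
    MeasureTheory.borel_eq_borel_of_le hp' inferInstance ht'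
  exact @continuous_case H G X Γ K _ _ _ _ _ _ t' hp' mX (@BorelSpace.mk X t' mX hb.symm) _ _ _
    (@ContinuousConstSMul.mk Γ X t' _ hc') _ _ hne f hfm hf'

end Pool.Agent.Helper58
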