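import Pool.Agent.Helper58.Action

/-!
The shift action of `H → G` on `H × G → Z` and the coordinatewise action of `I → Γ` on `I → Z`.
-/

set_option autoImplicit false
set_option linter.unusedSectionVars false

open Topology Filter Set TopologicalSpace
open scoped Classical

namespace Pool.Agent.Helper58

universe u v w u1 u2 u3 u4 u5

section Shift

variable (H : Type u) (G : Type v) (Z : Type w) [Group G] [TopologicalSpace Z]
  [TopologicalSpace G] [DiscreteTopology G]

/-- The coordinatewise shift action. -/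
def shiftAct : CAct (H → G) (H × G → Z) where
  act τ y := fun i => y (i.1, (τ i.1)⁻¹ * i.2)
  one y := by funext i; simp
  mul p q y := by funext i; simp [mul_assoc]
  cont := by
    refine continuous_pi fun i => ?_
    have h : Continuous fun x : G × (H × G → Z) => x.2 (i.1, x.1⁻¹ * i.2) :=
      continuous_prod_of_discrete_left.2 fun t =>
        (continuous_apply (A := fun _ : H × G => Z) (i.1, t⁻¹ * i.2))
    have h' : Continuous fun x : (H → G) × (H × G → Z) => (x.1 i.1, x.2) := by fun_prop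
    exact h.comp h'

variable {H G Z}

theorem shiftAct_apply (τ : H → G) (y : H × G → Z) (i : H × G) :
    (shiftAct H G Z).act τ y i = y (i.1, (τ i.1)⁻¹ * i.2) := rfl

/-- In an infinite group one can move a finite set off another one. -/
theorem exists_move [Infinite G] (F F' : Finset (H × G)) :
    ∃ t : G, ∀ i ∈ F, ∀ j ∈ F', t⁻¹ * i.2 ≠ j.2 := by
  obtain ⟨t, ht⟩ := Infinite.exists_notMem_finset
    ((F ×ˢ F').image fun x => x.1.2 * x.2.2⁻¹)
  refine ⟨t, fun i hi j hj h => ht ?_⟩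
  rw [Finset.mem_image]
  refine ⟨(i, j), Finset.mem_product.2 ⟨hi, hj⟩, ?_⟩
  simp [← h]

theorem shiftAct_trans [Infinite G] (N1 N2 : Set (H × G → Z)) (h1 : IsOpen N1) (h2 : IsOpen N2)
    (hne1 : N1.Nonempty) (hne2 : N2.Nonempty) :
    ∃ q, ∃ w ∈ N1, (shiftAct H G Z).act q w ∈ N2 := by
  obtain ⟨y, hy⟩ := hne1
  obtain ⟨y', hy'⟩ := hne2
  obtain ⟨F1, u1, hu1, huO1⟩ := isOpen_pi_iff.1 h1 y hy
  obtain ⟨F2, u2, hu2, huO2⟩ := isOpen_pi_iff.1 h2 y' hy'
  obtain ⟨t, ht⟩ := exists_move F2 F1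
  refine ⟨fun _ => t, fun i => if i ∈ F1 then y i else y' (i.1, t * i.2), huO1 ?_, huO2 ?_⟩
  · intro i hi
    have hi' : i ∈ F1 := hi
    simp only [hi', if_true]
    exact (hu1 i hi').2
  · intro i hi
    have hi' : i ∈ F2 := hi
    have hn : (i.1, t⁻¹ * i.2) ∉ F1 := fun h => ht i hi' _ h rfl
    simp only [shiftAct_apply, hn, if_false, mul_inv_cancel_left]
    exact (hu2 i hi').2

theorem shiftAct_compat (S : Finset H) (q1 q2 : H → G) (y z : H × G → Z) :
    (shiftAct H G Z).act (patch (S : Set H) q1 q2)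
      (patch {i : H × G | i.1 ∈ S} y z) =
    patch {i : H × G | i.1 ∈ S} ((shiftAct H G Z).act q1 y) ((shiftAct H G Z).act q2 z) := by
  funext i
  by_cases hi : i.1 ∈ S
  · simp [shiftAct_apply, patch, hi]
  · simp [shiftAct_apply, patch, hi]

theorem good_fst (F : Finset H) (F' : Finset (H × G)) :
    ∃ S : Finset H, (F : Set H) ⊆ (S : Set H) ∧ (F' : Set (H × G)) ⊆ {i : H × G | i.1 ∈ S} := by
  refine ⟨F ∪ F'.image Prod.fst, ?_, ?_⟩
  · intro x hx; simp at hx ⊢; exact Or.inl hx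
  · intro x hx
    simp only [mem_ofPred_eq, Finset.mem_union, Finset.mem_image]
    exact Or.inr ⟨x, hx, rfl⟩

theorem good_fst' (F F' : Finset (H × G)) :
    ∃ S : Finset H, (F : Set (H × G)) ⊆ {i : H × G | i.1 ∈ S} ∧
      (F' : Set (H × G)) ⊆ {i : H × G | i.1 ∈ S} := by
  refine ⟨F.image Prod.fst ∪ F'.image Prod.fst, ?_, ?_⟩
  · intro x hx
    simp only [mem_ofPred_eq, Finset.mem_union, Finset.mem_image]
    exact Or.inl ⟨x, hx, rfl⟩
  · intro x hx
    simp only [mem_ofPred_eq, Finset.mem_union, Finset.mem_image]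
    exact Or.inr ⟨x, hx, rfl⟩

end Shift

section Coord

variable (I : Type u) (Γ : Type v) (Z : Type w) [Group Γ] [TopologicalSpace Z]
  [TopologicalSpace Γ] [DiscreteTopology Γ] [MulAction Γ Z] [ContinuousConstSMul Γ Z]

/-- The coordinatewise action. -/
def coordAct : CAct (I → Γ) (I → Z) where
  act p y := fun i => p i • y i
  one y := by funext i; simp
  mul p q y := by funext i; simp [mul_smul]
  cont := by
    refine continuous_pi fun i => ?_
    have h : Continuous fun x : Γ × (I → Z) => x.1 • x.2 i :=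
      continuous_prod_of_discrete_left.2 fun t => (continuous_apply i).const_smul t
    have h' : Continuous fun x : (I → Γ) × (I → Z) => (x.1 i, x.2) := by fun_prop
    exact h.comp h'

variable {I Γ Z}

theorem coordAct_apply (p : I → Γ) (y : I → Z) (i : I) :
    (coordAct I Γ Z).act p y i = p i • y i := rfl

theorem coordAct_trans (htr : ∀ N1 N2 : Set Z, IsOpen N1 → IsOpen N2 → N1.Nonempty →
      N2.Nonempty → ∃ γ : Γ, ∃ z ∈ N1, γ • z ∈ N2)
    (N1 N2 : Set (I → Z)) (h1 : IsOpen N1) (h2 : IsOpen N2)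
    (hne1 : N1.Nonempty) (hne2 : N2.Nonempty) :
    ∃ q, ∃ w ∈ N1, (coordAct I Γ Z).act q w ∈ N2 := by
  obtain ⟨y, hy⟩ := hne1
  obtain ⟨y', hy'⟩ := hne2
  obtain ⟨F1, u1, hu1, huO1⟩ := isOpen_pi_iff.1 h1 y hy
  obtain ⟨F2, u2, hu2, huO2⟩ := isOpen_pi_iff.1 h2 y' hy'
  have key : ∀ i : I, ∃ γ : Γ, ∃ z : Z, (i ∈ F1 → z ∈ u1 i) ∧ (i ∈ F2 → γ • z ∈ u2 i) := by
    intro i
    by_cases hi1 : i ∈ F1
    · by_cases hi2 : i ∈ F2
      · obtain ⟨γ, z, hz, hz'⟩ := htr (u1 i) (u2 i) (hu1 i hi1).1 (hu2 i hi2).1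
          ⟨_, (hu1 i hi1).2⟩ ⟨_, (hu2 i hi2).2⟩
        exact ⟨γ, z, fun _ => hz, fun _ => hz'⟩
      · exact ⟨1, y i, fun _ => (hu1 i hi1).2, fun h => absurd h hi2⟩
    · by_cases hi2 : i ∈ F2
      · exact ⟨1, y' i, fun h => absurd h hi1, fun _ => by
          rw [one_smul]; exact (hu2 i hi2).2⟩
      · exact ⟨1, y i, fun h => absurd h hi1, fun h => absurd h hi2⟩
  choose γ z hz1 hz2 using key
  exact ⟨γ, z, huO1 fun i hi => hz1 i hi, huO2 fun i hi => hz2 i hi⟩

theorem coordAct_compat (A : Set I) (q1 q2 : I → Γ) (y z : I → Z) :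
    (coordAct I Γ Z).act (patch A q1 q2) (patch A y z) =
    patch A ((coordAct I Γ Z).act q1 y) ((coordAct I Γ Z).act q2 z) := by
  funext i
  by_cases hi : i ∈ A
  · simp [coordAct_apply, patch, hi]
  · simp [coordAct_apply, patch, hi]

end Coord

end Pool.Agent.Helper58
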